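import Mathlib
import Pool.Agent.H94.NC.CFun

/-!
# The functional of a contraction

`M` is a dg algebra and `F` an odd element with `D F = 1`.  For a closed supertrace `τ` the
functional `T_F (a₀ | ⋯ | aₙ) = τ (F a₀ F a₁ ⋯ F aₙ)` on words is invariant under the rotation, and
`T_F ∘ b` is `τ` on words of length one and zero on all longer words.
-/

set_option autoImplicit false

noncomputable section

namespace NC

variable {k : Type} [Field k]

namespace TwoC

open Wd

variable (M : DGA k)

/-- closed supertraces with values in `k` -/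
structure IsST (τ : M.V →ₗ[k] k) : Prop where
  D : ∀ a, τ (M.D a) = 0
  comm : ∀ a b p q, M.Hm a p → M.Hm b q → τ (M.mul a b) = sg k (p && q) * τ (M.mul b a)

/-- odd elements with `D F = 1` -/
structure IsCn (F : M.V) : Prop where
  odd : M.Hm F true
  D : M.D F = M.one

/-- `a₀ | ⋯ | aₙ ↦ a₀ F a₁ ⋯ F aₙ` -/
def psi (F : M.V) : Wd k M.V M.V →ₗ[k] M.V :=
  recW LinearMap.id 0 (M.mul.compl₂ (M.mul F))

@[simp] theorem psi_nil (F a : M.V) : psi M F (nil a) = a := by
  simp [psi]

@[simp] theorem psi_snoc (F : M.V) (w : Wd k M.V M.V) (r : M.V) :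
    psi M F (snoc w r) = M.mul (psi M F w) (M.mul F r) := by
  unfold psi
  rw [recW_snoc]
  simp

/-- `a₀ | ⋯ | aₙ ↦ F a₀ F a₁ ⋯ F aₙ` -/
def phi (F : M.V) : Wd k M.V M.V →ₗ[k] M.V := M.mul F ∘ₗ psi M F

theorem phi_apply (F : M.V) (w : Wd k M.V M.V) : phi M F w = M.mul F (psi M F w) := rfl

theorem phi_nil (F a : M.V) : phi M F (nil a) = M.mul F a := by
  rw [phi_apply, psi_nil]

theorem phi_snoc (F : M.V) (w : Wd k M.V M.V) (r : M.V) :
    phi M F (snoc w r) = M.mul (phi M F w) (M.mul F r) := by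
  rw [phi_apply, phi_apply, psi_snoc, M.mul_assoc']

theorem phi_cat (F : M.V) (u v : Wd k M.V M.V) :
    phi M F (cat u v) = M.mul (phi M F u) (phi M F v) := by
  induction v using induction with
  | hadd a b ha hb => simp only [map_add, ha, hb]
  | hnil a => rw [cat_nil, phi_snoc, phi_nil]
  | hsnoc w ih r => rw [cat_snoc, phi_snoc, phi_snoc, ih, M.mul_assoc']

theorem phi_hd (F r : M.V) (w : Wd k M.V M.V) :
    phi M F (hd M r w) = M.mul (M.mul F r) (psi M F w) := by
  induction w using induction with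
  | hadd a b ha hb => simp only [map_add, ha, hb]
  | hnil a => rw [hd_nil, phi_nil, psi_nil, M.mul_assoc']
  | hsnoc w ih s => rw [hd_snoc, phi_snoc, psi_snoc, ih, M.mul_assoc']

theorem phi_tl (F : M.V) (w : Wd k M.V M.V) (r : M.V) :
    phi M F (tlA M w r) = M.mul (phi M F w) r := by
  induction w using induction with
  | hadd a b ha hb => simp only [map_add, LinearMap.add_apply, ha, hb]
  | hnil a => rw [tl_nil, phi_nil, phi_nil, M.mul_assoc']
  | hsnoc w ih s => rw [tl_snoc, phi_snoc, phi_snoc, M.mul_assoc', M.mul_assoc']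

variable {M}

theorem hm_psi {F : M.V} (hF : M.Hm F true) {w : Wd k M.V M.V} {a : Bool}
    (hw : Hs M.toSD M.toSD w a) : M.Hm (psi M F w) (!a) := by
  have key : ∀ w, M.P (psi M F w) = psi M F (wP M.toSD M.toSD w) := by
    intro w
    induction w using hs_induction with
    | hadd a b ha hb => simp only [map_add, ha, hb]
    | hnil a q h => simp
    | hsnoc w a hw ih r q hr =>
      have h1 : M.Hm (psi M F w) (!a) := by
        unfold SD.Hm
        rw [ih]
        unfold Hs at hw
        rw [hw]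
        cases a <;> simp
      have h2 := M.hm_mul h1 (M.hm_mul hF hr)
      have h3 := hw.snoc hr
      unfold Hs at h3
      unfold SD.Hm at h2
      rw [h3, psi_snoc, h2]
      cases a <;> cases q <;> simp
  unfold SD.Hm
  rw [key]
  unfold Hs at hw
  rw [hw]
  cases a <;> simp

theorem hm_phi {F : M.V} (hF : M.Hm F true) {w : Wd k M.V M.V} {a : Bool}
    (hw : Hs M.toSD M.toSD w a) : M.Hm (phi M F w) a := by
  have h := M.hm_mul hF (hm_psi hF hw)
  simpa [phi_apply] using h

/-- the differential of `F a₀ ⋯ F aₙ` -/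
theorem D_phi {F : M.V} (hF : IsCn M F) (w : Wd k M.V M.V) :
    M.D (phi M F w) = psi M F w - phi M F (bp M w) := by
  have hE : M.E F = - F := by
    rw [hF.odd.E]
    simp
  have hFr : ∀ r, M.D (M.mul F r) = r - M.mul F (M.D r) := by
    intro r
    rw [M.D_mul, hF.D, M.one_mul', hE, map_neg, LinearMap.neg_apply]
    abel
  induction w using hs_induction with
  | hadd a b ha hb => simp only [map_add, ha, hb]; abel
  | hnil a q h => rw [phi_nil, hFr, psi_nil, bp_nil, phi_nil]
  | hsnoc w a hw ih r q hr =>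
    have h1 : phi M F (bp M (snoc w r)) = M.mul (phi M F (bp M w)) (M.mul F r)
        + sg k a • M.mul (phi M F w) (M.mul F (M.D r)) - sg k a • M.mul (phi M F w) r := by
      rw [bp_snoc_h hw, map_sub, map_add, map_smul, map_smul, phi_snoc, phi_snoc, phi_tl]
    rw [h1, phi_snoc, M.D_mul, ih, (hm_phi hF.odd hw).E, hFr, psi_snoc]
    simp only [map_sub, LinearMap.sub_apply, map_smul, LinearMap.smul_apply]
    module

variable (M)

/-- the functional -/
def TF (F : M.V) (τ : M.V →ₗ[k] k) : Wd k M.V M.V →ₗ[k] k := τ ∘ₗ phi M F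

theorem TF_apply (F : M.V) (τ : M.V →ₗ[k] k) (w : Wd k M.V M.V) :
    TF M F τ w = τ (phi M F w) := rfl

variable {M}

theorem TF_rot {F : M.V} (hF : M.Hm F true) {τ : M.V →ₗ[k] k} (hτ : IsST M τ)
    (w : Wd k M.V M.V) : TF M F τ (rot M.toSD w) = TF M F τ w := by
  induction w using hs_induction with
  | hadd a b ha hb => simp only [map_add, ha, hb]
  | hnil a q h => rw [rot_nil]
  | hsnoc w a hw ih r q hr =>
    have h1 := M.hm_mul hF hr
    rw [rot_snoc, cfl_h hw (Hs.nil hr), map_smul, TF_apply, TF_apply, phi_cat, phi_nil, phi_snoc,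
      hτ.comm _ _ _ _ (hm_phi hF hw) h1, smul_eq_mul]
    cases a <;> cases q <;> simp

/-- `T_F ∘ b` -/
theorem TF_bb {F : M.V} (hF : IsCn M F) {τ : M.V →ₗ[k] k} (hτ : IsST M τ)
    (w : Wd k M.V M.V) : TF M F τ (bb M w) = τ (split w).1 := by
  have hb : ∀ w, τ (phi M F (bp M w)) = τ (psi M F w) := by
    intro w
    have h := hτ.D (phi M F w)
    rw [D_phi hF, map_sub, sub_eq_zero] at h
    exact h.symm
  rw [TF_apply, bb_apply, map_add, map_add, hb]
  induction w using hs_induction with
  | hadd a b ha hb =>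
    simp only [map_add, Prod.fst_add]
    rw [← ha, ← hb]
    abel
  | hnil a q h => simp
  | hsnoc w a hw ih r q hr =>
    have h1 := M.hm_mul hF.odd hr
    rw [psi_snoc, cc_snoc_h hw hr, map_smul, map_smul, phi_hd, split_snoc,
      hτ.comm _ _ _ _ (hm_psi hF.odd hw) h1, smul_eq_mul, map_zero]
    cases a <;> cases q <;> simp

end TwoC

end NC
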