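import Mathlib
import Pool.Agent.H94.NC.GrTot
import Pool.Agent.H94.NC.GCyc
import Pool.Agent.H82.BD.TF

/-!
# The Hochschild complex of a contractible dg algebra is acyclic
-/

set_option autoImplicit false

noncomputable section

namespace NC

variable {k : Type} [Field k]

namespace TwoC

open Wd

theorem len_ind {N R : Type} [AddCommGroup N] [Module k N] [AddCommGroup R] [Module k R]
    {n : ℕ} (S : Submodule k (Wd k N R)) (h0 : ∀ a, nil a ∈ S)
    (h1 : ∀ w ∈ len k N R n, ∀ r, snoc w r ∈ S) : len k N R (n + 1) ≤ S := by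
  refine sup_le ?_ ?_
  · rintro _ ⟨a, rfl⟩
    exact h0 a
  · exact Submodule.map₂_le.2 fun w hw r _ => h1 w hw r

variable (M : DGA k)

theorem hd_len (r : M.V) (n : ℕ) : ∀ w ∈ len k M.V M.V n, hd M r w ∈ len k M.V M.V n := by
  induction n with
  | zero =>
    rintro _ ⟨a, rfl⟩
    rw [hd_nil]
    exact nil_mem_len _ _
  | succ n ih =>
    intro w hw
    refine len_ind ((len k M.V M.V (n + 1)).comap (hd M r)) (fun a => ?_) (fun w hw s => ?_) hw
    · change hd M r (nil a) ∈ len k M.V M.V (n + 1)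
      rw [hd_nil]
      exact nil_mem_len _ _
    · change hd M r (snoc w s) ∈ len k M.V M.V (n + 1)
      rw [hd_snoc]
      exact snoc_mem_len (ih w hw) s

theorem wP_len (n : ℕ) : ∀ w ∈ len k M.V M.V n, wP M.toSD M.toSD w ∈ len k M.V M.V n := by
  induction n with
  | zero =>
    rintro _ ⟨a, rfl⟩
    rw [wP_nil]
    exact nil_mem_len _ _
  | succ n ih =>
    intro w hw
    refine len_ind ((len k M.V M.V (n + 1)).comap (wP M.toSD M.toSD)) (fun a => ?_)
      (fun w hw s => ?_) hw
    · change wP M.toSD M.toSD (nil a) ∈ len k M.V M.V (n + 1)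
      rw [wP_nil]
      exact nil_mem_len _ _
    · change wP M.toSD M.toSD (snoc w s) ∈ len k M.V M.V (n + 1)
      rw [wP_snoc]
      have h1 := ih w hw
      exact Submodule.add_mem _ (snoc_mem_len hw _) (Submodule.sub_mem _ (Submodule.sub_mem _
        (snoc_mem_len h1 _) (snoc_mem_len h1 _)) (snoc_mem_len h1 _))

theorem wS_len (n : ℕ) (w : Wd k M.V M.V) (hw : w ∈ len k M.V M.V n) :
    wS M.toSD M.toSD w ∈ len k M.V M.V n := by
  rw [wS_apply]
  have h := wP_len M n w hw
  exact Submodule.sub_mem _ (Submodule.sub_mem _ hw h) h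

theorem cc_len (n : ℕ) : ∀ w ∈ len k M.V M.V (n + 1), cc M w ∈ len k M.V M.V n := by
  intro w hw
  refine len_ind ((len k M.V M.V n).comap (cc M)) (fun a => ?_) (fun w hw s => ?_) hw
  · change cc M (nil a) ∈ len k M.V M.V n
    rw [cc_nil]
    exact Submodule.zero_mem _
  · change cc M (snoc w s) ∈ len k M.V M.V n
    rw [cc_snoc]
    exact Submodule.sub_mem _ (hd_len M _ n _ (wS_len M n w hw)) (hd_len M _ n _ hw)

theorem cc_len_zero (w : Wd k M.V M.V) (hw : w ∈ len k M.V M.V 0) : cc M w = 0 := by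
  obtain ⟨a, rfl⟩ := hw
  exact cc_nil M a

variable {M}

theorem bb_hd {F : M.V} (hF : IsCn M F) (w : Wd k M.V M.V) :
    bb M (hd M F w) + hd M F (bb M w) = w + (cc M (hd M F w) + hd M F (cc M w)) := by
  rw [bb_apply, bb_apply, map_add, bp_hd hF.odd, hF.D, hd_one]
  simp only [sg_true]
  module

/-- the Hochschild complex is acyclic -/
theorem bb_exact {F : M.V} (hF : IsCn M F) (w : Wd k M.V M.V) (hw : bb M w = 0) :
    ∃ z, bb M z = w := by
  have key : ∀ n : ℕ, ∀ w ∈ len k M.V M.V n, bb M w = 0 → ∃ z, bb M z = w := by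
    intro n
    induction n with
    | zero =>
      intro w hw h
      refine ⟨hd M F w, ?_⟩
      have h1 := bb_hd hF w
      rw [h, cc_len_zero M w hw, cc_len_zero M _ (hd_len M F 0 w hw)] at h1
      simpa using h1
    | succ n ih =>
      intro w hw h
      have h1 := bb_hd hF w
      rw [h, map_zero, add_zero] at h1
      obtain ⟨z, hz⟩ := ih (cc M (hd M F w) + hd M F (cc M w))
        (Submodule.add_mem _ (cc_len M n _ (hd_len M F _ w hw)) (hd_len M F n _ (cc_len M n w hw)))
        (by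
          have h2 : cc M (hd M F w) + hd M F (cc M w) = bb M (hd M F w) - w := by
            rw [h1]
            abel
          rw [h2, map_sub, bb_bb, h, sub_zero])
      refine ⟨hd M F w - z, ?_⟩
      rw [map_sub, h1, hz]
      abel
  obtain ⟨n, hn⟩ := exists_mem_len w
  exact key n w hn hw

/-- the graded version -/
theorem HH_zero (M : ZDGA k) {F : M.V} (hF : IsCn M.toDGA F) (m : ℤ) (x : M.cyc.HH m) : x = 0 := by
  apply M.cyc.hinc_inj M.cyc_internal m
  rw [map_zero]
  obtain ⟨v, hv, h⟩ := M.cyc.tcls_surj (M.cyc.hinc m x)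
  rw [← h]
  exact (M.cyc.tcls_eq_zero v hv).2 (bb_exact hF v hv)

end TwoC

end NC
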