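import Mathlib
import Pool.Agent.H94.BK.Defs

/-!
# Coefficient rings: perfect fields
-/

set_option autoImplicit false

noncomputable section

namespace NC

namespace BK

variable {p : ℕ} [hp : Fact p.Prime]

/-- the Witt vectors modulo `p²` of a perfect field -/
theorem car_perfect (K : Type) [Field K] [CharP K p] [PerfectRing K p] :
    Nonempty (Car p K (WittVector p K ⧸ Ideal.span {((p : WittVector p K) * (p : WittVector p K))})) := by
  have h0 : ∀ a ∈ Ideal.span {((p : WittVector p K) * (p : WittVector p K))},
      WittVector.constantCoeff a = 0 := by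
    intro a ha
    obtain ⟨b, rfl⟩ := Ideal.mem_span_singleton'.1 ha
    rw [map_mul, map_mul]
    have h1 : WittVector.constantCoeff (p : WittVector p K) = 0 := by
      rw [map_natCast, CharP.cast_eq_zero]
    rw [h1]
    simp
  refine ⟨⟨Ideal.Quotient.lift _ WittVector.constantCoeff h0, ?_, ?_, ?_, ?_⟩⟩
  · intro x
    exact ⟨Ideal.Quotient.mk _ (WittVector.teichmuller p x), by
      rw [Ideal.Quotient.lift_mk]
      exact WittVector.teichmuller_coeff_zero p x⟩
  · have h1 : (Ideal.Quotient.mk (Ideal.span {((p : WittVector p K) * (p : WittVector p K))}))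
        ((p : WittVector p K) * (p : WittVector p K)) = 0 :=
      Ideal.Quotient.eq_zero_iff_mem.2 (Ideal.mem_span_singleton_self _)
    rw [map_mul, map_natCast] at h1
    exact h1
  · intro r hr
    obtain ⟨x, rfl⟩ := Ideal.Quotient.mk_surjective r
    rw [Ideal.Quotient.lift_mk] at hr
    have hx : x.coeff 0 = 0 := hr
    have h1 : WittVector.verschiebung (x.shift 1) = x := by
      have h2 := WittVector.verschiebung_shift x 0 (fun i hi => by
        have : i = 0 := by omega
        rw [this]
        exact hx)
      have h3 : x.shift 0 = x := by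
        ext n
        rw [WittVector.shift_coeff, zero_add]
      rw [h3] at h2
      exact h2
    obtain ⟨z, hz⟩ := (WittVector.frobenius_bijective p K).2 (x.shift 1)
    refine ⟨Ideal.Quotient.mk _ z, ?_⟩
    have h4 : x = (p : WittVector p K) * z := by
      rw [mul_comm, ← WittVector.verschiebung_frobenius, hz, h1]
    rw [← map_natCast (Ideal.Quotient.mk _), ← map_mul, ← h4]
  · intro r hr
    obtain ⟨x, rfl⟩ := Ideal.Quotient.mk_surjective r
    rw [← map_natCast (Ideal.Quotient.mk _), ← map_mul, Ideal.Quotient.eq_zero_iff_mem,
      Ideal.mem_span_singleton'] at hr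
    obtain ⟨y, hy⟩ := hr
    have h1 : x = y * (p : WittVector p K) := by
      have h2 : (p : WittVector p K) ≠ 0 := WittVector.p_nonzero p K
      apply mul_left_cancel₀ h2
      rw [← hy]
      ring
    rw [Ideal.Quotient.lift_mk, h1, map_mul, map_natCast, CharP.cast_eq_zero, mul_zero]

end BK

end NC
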