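import Mathlib
import Pool.Agent.H82.BD.WTwo

/-!
# Coefficient rings for all fields of characteristic `p`
-/

set_option autoImplicit false

noncomputable section

namespace NC

namespace BK

open Polynomial

variable {p : ℕ} [hp : Fact p.Prime] {K W : Type} [Field K] [CommRing W] (c : Car p K W)

omit hp in
include c in
theorem Car.charP_zero : (p : K) = 0 := by
  have h := c.flat (p : W) c.pp
  rwa [map_natCast] at h

omit hp in
theorem Car.mul_eq {w w' : W} (h : c.π w = c.π w') : (p : W) * w = (p : W) * w' := by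
  obtain ⟨s, hs⟩ := c.ker (w - w') (by rw [map_sub, h, sub_self])
  have h1 : (p : W) * w - (p : W) * w' = (p : W) * (p : W) * s := by
    rw [← mul_sub, hs, mul_assoc]
  rw [c.pp, zero_mul, sub_eq_zero] at h1
  exact h1

omit hp in
theorem Car.eq_of_mul {w w' : W} (h : (p : W) * w = (p : W) * w') : c.π w = c.π w' := by
  have h1 := c.flat (w - w') (by rw [mul_sub, h, sub_self])
  rwa [map_sub, sub_eq_zero] at h1

omit hp in
theorem Car.pow_eq {w w' : W} (h : c.π w = c.π w') : w ^ p = w' ^ p := by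
  obtain ⟨s, hs⟩ := c.ker (w - w') (by rw [map_sub, h, sub_self])
  have h1 := dvd_sub_pow_of_dvd_sub (show (p : W) ∣ w - w' from ⟨s, hs⟩) 1
  obtain ⟨r, hr⟩ := h1
  rw [pow_one, one_add_one_eq_two, pow_two, c.pp, zero_mul, sub_eq_zero] at hr
  exact hr

/-- the subrings used in the construction -/
structure Good (κ : Subfield K) (S : Subring W) : Prop where
  pow : ∀ w, c.π w ∈ κ → w ^ p ∈ S
  mul : ∀ w, c.π w ∈ κ → (p : W) * w ∈ S
  le : ∀ s ∈ S, c.π s ∈ κ
  inv : ∀ w, (p : W) * w ∈ S → c.π w ∈ κ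

/-- the smallest such subring -/
def base (κ : Subfield K) : Subring W where
  carrier := {x | ∃ u z, c.π u ∈ κ ∧ c.π z ∈ κ ∧ x = u ^ p + (p : W) * z}
  mul_mem' := by
    rintro _ _ ⟨u, z, hu, hz, rfl⟩ ⟨u', z', hu', hz', rfl⟩
    refine ⟨u * u', u ^ p * z' + z * u' ^ p, ?_, ?_, ?_⟩
    · rw [map_mul]
      exact mul_mem hu hu'
    · rw [map_add, map_mul, map_mul, map_pow, map_pow]
      exact add_mem (mul_mem (pow_mem hu _) hz') (mul_mem hz (pow_mem hu' _))
    · have h := c.pp
      linear_combination (z * z') * h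
  one_mem' := ⟨1, 0, by rw [map_one]; exact one_mem _, by rw [map_zero]; exact zero_mem _, by simp⟩
  add_mem' := by
    rintro _ _ ⟨u, z, hu, hz, rfl⟩ ⟨u', z', hu', hz', rfl⟩
    have hT := exists_add_pow_prime_eq hp.out (⟨u, hu⟩ : κ.toSubring.comap c.π)
      (⟨u', hu'⟩ : κ.toSubring.comap c.π)
    obtain ⟨r, hr⟩ := hT
    have hr' := congrArg (fun x : κ.toSubring.comap c.π => (x : W)) hr
    simp only [Subring.coe_add, Subring.coe_mul, SubmonoidClass.coe_pow, Subring.coe_natCast] at hr'
    refine ⟨u + u', z + z' - u * u' * r, ?_, ?_, ?_⟩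
    · rw [map_add]
      exact add_mem hu hu'
    · have h1 : c.π (r : W) ∈ κ := r.2
      rw [map_sub, map_add, map_mul, map_mul]
      exact sub_mem (add_mem hz hz') (mul_mem (mul_mem hu hu') h1)
    · rw [hr']
      ring
  zero_mem' := ⟨0, 0, by rw [map_zero]; exact zero_mem _, by rw [map_zero]; exact zero_mem _, by
    rw [zero_pow hp.out.ne_zero]
    simp⟩
  neg_mem' := by
    rintro _ ⟨u, z, hu, hz, rfl⟩
    have hT := exists_add_pow_prime_eq hp.out (⟨u, hu⟩ : κ.toSubring.comap c.π)
      (- ⟨u, hu⟩ : κ.toSubring.comap c.π)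
    obtain ⟨r, hr⟩ := hT
    rw [add_neg_cancel, zero_pow hp.out.ne_zero] at hr
    have hr' := congrArg (fun x : κ.toSubring.comap c.π => (x : W)) hr
    simp only [Subring.coe_add, Subring.coe_mul, SubmonoidClass.coe_pow, Subring.coe_natCast,
      Subring.coe_neg, Subring.coe_zero] at hr'
    refine ⟨- u, u * (-u) * r - z, ?_, ?_, ?_⟩
    · rw [map_neg]
      exact neg_mem hu
    · have h1 : c.π (r : W) ∈ κ := r.2
      rw [map_sub, map_mul, map_mul, map_neg]
      exact sub_mem (mul_mem (mul_mem hu (neg_mem hu)) h1) hz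
    · linear_combination hr'

theorem good_base (κ : Subfield K) : Good c κ (base c κ) where
  pow := fun w hw => ⟨w, 0, hw, by rw [map_zero]; exact zero_mem _, by simp⟩
  mul := fun w hw => ⟨0, w, by rw [map_zero]; exact zero_mem _, hw, by
    rw [zero_pow hp.out.ne_zero, zero_add]⟩
  le := by
    rintro _ ⟨u, z, hu, hz, rfl⟩
    rw [map_add, map_mul, map_natCast, c.charP_zero, zero_mul, add_zero, map_pow]
    exact pow_mem hu _
  inv := by
    rintro w ⟨u, z, hu, hz, h⟩
    have h1 : c.π u = 0 := by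
      have h2 := congrArg c.π h
      rw [map_add, map_mul, map_mul, map_natCast, c.charP_zero, zero_mul, zero_mul, add_zero,
        map_pow] at h2
      exact pow_eq_zero_iff hp.out.ne_zero |>.1 h2.symm
    have h2 : u ^ p = 0 := by
      rw [c.pow_eq (w' := 0) (by rw [h1, map_zero]), zero_pow hp.out.ne_zero]
    rw [h2, zero_add] at h
    rw [c.eq_of_mul h]
    exact hz

theorem exists_max (κ : Subfield K) : ∃ S : Subring W, Good c κ S ∧
    ∀ S' : Subring W, Good c κ S' → S ≤ S' → S' ≤ S := by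
  obtain ⟨S, -, hS⟩ := zorn_le_nonempty₀ {S : Subring W | Good c κ S} (by
    intro C hC hC2 y hy
    have hdir : DirectedOn (· ≤ ·) C := hC2.directedOn
    have hne : C.Nonempty := ⟨y, hy⟩
    refine ⟨sSup C, ⟨fun w hw => ?_, fun w hw => ?_, fun s hs => ?_, fun w hw => ?_⟩,
      fun z hz => le_sSup hz⟩
    · exact (le_sSup hy : y ≤ sSup C) ((hC hy).pow w hw)
    · exact (le_sSup hy : y ≤ sSup C) ((hC hy).mul w hw)
    · rw [Subring.mem_sSup_of_directedOn hne hdir] at hs
      obtain ⟨T, hT, hsT⟩ := hs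
      exact (hC hT).le s hsT
    · rw [Subring.mem_sSup_of_directedOn hne hdir] at hw
      obtain ⟨T, hT, hsT⟩ := hw
      exact (hC hT).inv w hsT) (base c κ) (good_base c κ)
  exact ⟨S, hS.1, fun S' h1 h2 => hS.2 h1 h2⟩

omit hp in
theorem pow_aux {x : K} (h0 : x ≠ 0) (n : ℕ) (hn : 0 < n) : x ^ (n - 1) * x⁻¹ ^ n = x⁻¹ := by
  obtain ⟨q, rfl⟩ : ∃ q, n = q + 1 := ⟨n - 1, by omega⟩
  rw [Nat.add_sub_cancel, pow_succ, ← mul_assoc, ← mul_pow, mul_inv_cancel₀ h0, one_pow,
    one_mul]

/-- the residue field of such a subring -/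
def resF (κ : Subfield K) (S : Subring W) (hS : Good c κ S) : Subfield K where
  toSubring := S.map c.π
  inv_mem' := by
    rintro x ⟨s, hs, rfl⟩
    by_cases h0 : c.π s = 0
    · rw [h0, inv_zero]
      exact ⟨0, S.zero_mem, map_zero _⟩
    · obtain ⟨w, hw⟩ := c.surj (c.π s)⁻¹
      have hwκ : c.π w ∈ κ := by
        rw [hw]
        exact inv_mem (hS.le s hs)
      refine ⟨s ^ (p - 1) * w ^ p, mul_mem (pow_mem hs _) (hS.pow w hwκ), ?_⟩
      rw [map_mul, map_pow, map_pow, hw]
      exact pow_aux h0 p hp.out.pos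

theorem mem_resF {κ : Subfield K} {S : Subring W} (hS : Good c κ S) {x : K} :
    x ∈ resF c κ S hS ↔ ∃ s ∈ S, c.π s = x := Iff.rfl

/-- a polynomial of degree less than `p` over the residue field is zero if it vanishes at an
element which is not in the residue field -/
theorem poly_zero [CharP K p] {F : Subfield K} {a : K} (ha : a ∉ F) (hap : a ^ p ∈ F) (f : F[X])
    (hf : f.natDegree < p) (h0 : f.eval₂ F.subtype a = 0) : f = 0 := by
  by_contra hne
  have hirr : Irreducible (X ^ p - C (⟨a ^ p, hap⟩ : F)) := by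
    refine X_pow_sub_C_irreducible_of_prime hp.out fun b hb => ha ?_
    have h1 : (b : K) ^ p = a ^ p := congrArg (fun x : F => (x : K)) hb
    have h2 : (b : K) = a := frobenius_inj K p h1
    rw [← h2]
    exact b.2
  have hroot : (X ^ p - C (⟨a ^ p, hap⟩ : F)).eval₂ F.subtype a = 0 := by
    simp
  have hmin : X ^ p - C (⟨a ^ p, hap⟩ : F) = minpoly F a := by
    refine minpoly.eq_of_irreducible_of_monic hirr ?_ (monic_X_pow_sub_C _ hp.out.ne_zero)
    exact hroot
  have hdvd : minpoly F a ∣ f := minpoly.dvd F a h0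
  rw [← hmin] at hdvd
  have h3 := Polynomial.natDegree_le_of_dvd hdvd hne
  rw [natDegree_X_pow_sub_C] at h3
  omega

theorem max_surj [CharP K p] {κ : Subfield K} {S : Subring W} (hS : Good c κ S)
    (hmax : ∀ S' : Subring W, Good c κ S' → S ≤ S' → S' ≤ S) (a : W) (ha : c.π a ∈ κ) :
    ∃ s ∈ S, c.π s = c.π a := by
  by_contra hn
  have : Nontrivial W := c.π.domain_nontrivial
  have hn' : c.π a ∉ resF c κ S hS := hn
  have hap : a ^ p ∈ S := hS.pow a ha
  set S' : Subring W := (Polynomial.eval₂RingHom S.subtype a).range with hS'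
  have hle : S ≤ S' := by
    intro s hs
    exact ⟨C ⟨s, hs⟩, by simp⟩
  have haS : a ∈ S' := ⟨X, by simp⟩
  refine hn ⟨a, hmax S' ⟨fun w hw => hle (hS.pow w hw), fun w hw => hle (hS.mul w hw), ?_, ?_⟩ hle
    haS, rfl⟩
  · have h1 : S' ≤ κ.toSubring.comap c.π := by
      rintro _ ⟨f, rfl⟩
      rw [Polynomial.coe_eval₂RingHom, Polynomial.eval₂_eq_sum_range]
      refine sum_mem fun i _ => mul_mem (hS.le _ (f.coeff i).2) ?_
      exact pow_mem (show a ∈ κ.toSubring.comap c.π from ha) _
    exact fun s hs => h1 hs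
  · rintro w ⟨f, hf⟩
    set g : S[X] := X ^ p - C (⟨a ^ p, hap⟩ : S) with hg
    have hgm : g.Monic := monic_X_pow_sub_C _ hp.out.ne_zero
    have hga : g.eval₂ S.subtype a = 0 := by simp [hg]
    set r : S[X] := f %ₘ g with hr
    have hra : r.eval₂ S.subtype a = (p : W) * w := by
      rw [← hf, Polynomial.coe_eval₂RingHom]
      have h1 := congrArg (Polynomial.eval₂ S.subtype a) (Polynomial.modByMonic_add_div f g)
      rw [Polynomial.eval₂_add, Polynomial.eval₂_mul, hga, zero_mul, add_zero] at h1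
      exact h1
    have hrd : r.natDegree < p := by
      have h1 := Polynomial.natDegree_modByMonic_lt f hgm (by
        intro h
        have h2 := congrArg Polynomial.natDegree h
        rw [hg, natDegree_X_pow_sub_C, natDegree_one] at h2
        exact hp.out.ne_zero h2)
      rwa [hg, natDegree_X_pow_sub_C] at h1
    -- reduction to the residue field
    let ρ : S →+* resF c κ S hS := (c.π.comp S.subtype).codRestrict (resF c κ S hS)
      (fun s => ⟨s, s.2, rfl⟩)
    have hρ : ∀ s : S, ((ρ s : resF c κ S hS) : K) = c.π (s : W) := fun s => rfl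
    have hz : r.map ρ = 0 := by
      refine poly_zero (p := p) hn' ?_ _ (lt_of_le_of_lt (Polynomial.natDegree_map_le) hrd) ?_
      · exact ⟨a ^ p, hap, map_pow _ _ _⟩
      · rw [Polynomial.eval₂_map]
        have h1 : (resF c κ S hS).subtype.comp ρ = c.π.comp S.subtype := RingHom.ext hρ
        rw [h1, ← Polynomial.hom_eval₂, hra, map_mul, map_natCast, c.charP_zero, zero_mul]
    have hco : ∀ i, ∃ z, (r.coeff i : W) = (p : W) * z ∧ c.π z ∈ κ := by
      intro i
      have h1 : c.π (r.coeff i : W) = 0 := by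
        rw [← hρ, ← Polynomial.coeff_map, hz]
        simp
      obtain ⟨z, hz⟩ := c.ker _ h1
      exact ⟨z, hz, hS.inv z (hz ▸ (r.coeff i).2)⟩
    choose z hz1 hz2 using hco
    have h2 : (p : W) * w = (p : W) * ∑ i ∈ Finset.range (r.natDegree + 1), z i * a ^ i := by
      rw [← hra, Polynomial.eval₂_eq_sum_range, Finset.mul_sum]
      refine Finset.sum_congr rfl fun i _ => ?_
      have h3 : S.subtype (r.coeff i) = (p : W) * z i := hz1 i
      rw [h3, mul_assoc]
    rw [c.eq_of_mul h2, map_sum]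
    refine sum_mem fun i _ => ?_
    rw [map_mul, map_pow]
    exact mul_mem (hz2 i) (pow_mem ha _)

include c in
theorem car_subfield [CharP K p] (κ : Subfield K) :
    ∃ (R : Type) (_ : CommRing R), Nonempty (Car p κ R) := by
  obtain ⟨S, hS, hmax⟩ := exists_max c κ
  refine ⟨S, inferInstance, ⟨⟨(c.π.comp S.subtype).codRestrict κ (fun s => hS.le _ s.2), ?_, ?_, ?_,
    ?_⟩⟩⟩
  · intro x
    obtain ⟨w, hw⟩ := c.surj x
    obtain ⟨s, hs, h⟩ := max_surj c hS hmax w (by rw [hw]; exact x.2)
    exact ⟨⟨s, hs⟩, Subtype.ext (h.trans hw)⟩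
  · apply Subtype.ext
    simpa using c.pp
  · intro s hs
    have h1 : c.π (s : W) = 0 := congrArg (fun x : κ => (x : K)) hs
    obtain ⟨w, hw⟩ := c.ker _ h1
    obtain ⟨s', hs', h⟩ := max_surj c hS hmax w (hS.inv w (hw ▸ s.2))
    refine ⟨⟨s', hs'⟩, Subtype.ext ?_⟩
    rw [hw, c.mul_eq h.symm]
    simp
  · intro s hs
    apply Subtype.ext
    have h1 : (p : W) * (s : W) = 0 := by simpa using congrArg (fun x : S => (x : W)) hs
    exact c.flat _ h1

/-- **every field of characteristic `p` has a coefficient ring** -/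
theorem exists_car (p : ℕ) [Fact p.Prime] (k : Type) [Field k] [CharP k p] :
    ∃ (R : Type) (_ : CommRing R), Nonempty (Car p k R) := by
  let K := AlgebraicClosure k
  have : CharP K p := charP_of_injective_algebraMap (algebraMap k K).injective p
  obtain ⟨c⟩ := car_perfect (p := p) K
  obtain ⟨R, _, ⟨d⟩⟩ := car_subfield c (algebraMap k K).fieldRange
  let e : k ≃+* (algebraMap k K).fieldRange := (algebraMap k K).rangeRestrictFieldEquiv
  refine ⟨R, inferInstance, ⟨⟨(e.symm : _ →+* k).comp d.π, ?_, d.pp, ?_, ?_⟩⟩⟩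
  · exact e.symm.surjective.comp d.surj
  · intro r hr
    refine d.ker r (e.symm.injective ?_)
    rw [map_zero]
    exact hr
  · intro r hr
    change e.symm (d.π r) = 0
    rw [d.flat r hr, map_zero]

end BK

end NC
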