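import Mathlib
import Pool.Agent.H94.NC.CycStr
import Pool.Agent.H82.BD.AC

/-!
# Two contractions detect classes of periodic cyclic homology

`M` is a dg algebra with two elements `F₁`, `F₂` of degree `-1` with `D Fⱼ = 1`, `τ` a closed
supertrace on `M` and `f : A → M` a morphism of dg algebras (not necessarily unital) such that
`τ (Fⱼ f(a₀) Fⱼ f(a₁) ⋯ Fⱼ f(aₙ)) = 0` for all words and `j = 1, 2`.  Then a class of `HP(A)` with
column `0` the word `(w)` of length one and zero columns `p > 0` can only vanish if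
`τ (F₁ F₁ f(w)) = τ (F₂ F₁ f(w))`.
-/

set_option autoImplicit false

noncomputable section

namespace NC

variable {k : Type} [Field k]

namespace TwoC

open Wd CycMod

section

variable (M : ZDGA k)

/-- `T_F` on the cyclic module -/
def TFc (F : M.V) (τ : M.V →ₗ[k] k) : M.cyc.V →ₗ[k] k := TF M.toDGA F τ

/-- `τ` on the words of length one -/
def onec (τ : M.V →ₗ[k] k) : M.cyc.V →ₗ[k] k :=
  (τ ∘ₗ recW LinearMap.id 0 0 : Wd k M.V M.V →ₗ[k] k)

variable {M}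

theorem TFc_nil (F : M.V) (τ : M.V →ₗ[k] k) (a : M.V) :
    TFc M F τ (nil a : Wd k M.V M.V) = τ (M.mul F a) := by
  change TF M.toDGA F τ (nil a) = _
  rw [TF_apply, phi_nil]

theorem TFc_b {F : M.V} (hF : IsCn M.toDGA F) {τ : M.V →ₗ[k] k} (hτ : IsST M.toDGA τ)
    (v : M.cyc.V) : TFc M F τ (M.cyc.b v) = onec M τ v := by
  have h : ∀ v : Wd k M.V M.V, TF M.toDGA F τ (bb M.toDGA v)
      = τ (recW (LinearMap.id : M.V →ₗ[k] M.V) 0 0 v) := by
    intro v
    rw [TF_bb hF hτ]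
    congr 1
    induction v using induction with
    | hadd a b ha hb => simp only [map_add, Prod.fst_add, ha, hb]
    | hnil a => simp
    | hsnoc w ih r => simp
  exact h v

theorem TFc_T {F : M.V} (hF : IsCn M.toDGA F) {τ : M.V →ₗ[k] k} (hτ : IsST M.toDGA τ)
    (v : M.cyc.V) : TFc M F τ (M.cyc.T v) = 0 := by
  have h : ∀ v : Wd k M.V M.V, TF M.toDGA F τ (v - rot M.toSD v) = 0 := by
    intro v
    rw [map_sub, TF_rot hF.odd hτ, sub_self]
  exact h v

/-- `T_F` on the boundaries of the columns `p ≥ 0` -/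
theorem TFc_wD {F : M.V} (hF : IsCn M.toDGA F) {τ : M.V →ₗ[k] k} (hτ : IsST M.toDGA τ)
    (c : ℤ → M.cyc.V) : TFc M F τ (M.cyc.wD (Set.Ici 0) c 0) = onec M τ (c 0) := by
  have h0 : (0 : ℤ) ∈ Set.Ici (0 : ℤ) := Set.self_mem_Ici
  have h1 : M.cyc.col 0 = M.cyc.b := if_pos (by decide)
  have h2 : M.cyc.hor (0 + 1) = M.cyc.T := if_neg (by decide)
  rw [M.cyc.wD_mem c h0, h1, h2, map_add, TFc_b hF hτ, TFc_T hF hτ, add_zero]

end

/-- the vanishing hypothesis from lists -/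
theorem TFc_van {A M : ZDGA k} (f : ZHom A M) (F : M.V) (τ : M.V →ₗ[k] k)
    (h : ∀ L : List A.V, L ≠ [] → τ (L.map (fun a => M.mul F (f.f a))).prod = 0) (v : A.cyc.V) :
    TFc M F τ (f.cyc.f v) = 0 := by
  have key : ∀ (v : Wd k A.V A.V) (L : List A.V),
      τ (M.mul (phi M.toDGA F (wm (A := A.toSD) (B := M.toSD) f.f v))
        (L.map (fun a => M.mul F (f.f a))).prod) = 0 := by
    intro v
    induction v using induction with
    | hadd a b ha hb =>
      intro L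
      simp only [map_add, LinearMap.add_apply, ha, hb, add_zero]
    | hnil a =>
      intro L
      have h1 := h (a :: L) (List.cons_ne_nil _ _)
      rw [wm_nil, phi_nil]
      rw [List.map_cons, List.prod_cons] at h1
      exact h1
    | hsnoc w ih r =>
      intro L
      have h1 := ih (r :: L)
      rw [List.map_cons, List.prod_cons] at h1
      rw [wm_snoc, phi_snoc, M.mul_assoc']
      exact h1
  have h2 := key v []
  have h3 : ∀ x : M.V, M.mul x (1 : M.V) = x := M.mul_one'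
  rw [List.map_nil, List.prod_nil, h3] at h2
  exact h2

/-- **Detection by two contractions.** -/
theorem cls_ne_zero {A M : ZDGA k} (f : ZHom A M) {F₁ F₂ : M.V} (h1 : IsCn M.toDGA F₁)
    (h2 : IsCn M.toDGA F₂) (g1 : F₁ ∈ M.gr (-1)) {τ : M.V →ₗ[k] k} (hτ : IsST M.toDGA τ)
    (V1 : ∀ v : A.cyc.V, TFc M F₁ τ (f.cyc.f v) = 0)
    (V2 : ∀ v : A.cyc.V, TFc M F₂ τ (f.cyc.f v) = 0)
    {m : ℤ} {w : A.V} (hw : w ∈ A.gr (-m)) {P : ℤ → A.cyc.V} (hP : P ∈ A.cyc.Z Set.univ m)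
    (hP0 : P 0 = (nil w : Wd k A.V A.V)) (hP1 : ∀ p, 0 < p → P p = 0)
    (hne : τ (M.mul F₁ (M.mul F₁ (f.f w))) ≠ τ (M.mul F₂ (M.mul F₁ (f.f w)))) :
    A.cyc.cls P hP ≠ 0 := by
  intro h0
  obtain ⟨ξ, hξ, hξ2⟩ := (A.cyc.cls_eq_zero P hP).1 h0
  have hcol : ∀ (B : ZDGA k) (a : B.V), B.cyc.col 0 (nil a : Wd k B.V B.V)
      = (nil (B.D a) : Wd k B.V B.V) := by
    intro B a
    have h1 : B.cyc.col 0 = B.cyc.b := if_pos (by decide)
    have h2 : bb B.toDGA (nil a) = nil (B.D a) := by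
      rw [bb_apply, bp_nil, cc_nil, add_zero]
    rw [h1]
    exact h2
  -- `D w = 0`
  have hDw : A.D w = 0 := by
    have h3 : A.cyc.wD Set.univ P = 0 := hP.1
    have h4 := congrFun h3 0
    rw [A.cyc.wD_mem _ (Set.mem_univ _), hP0, hP1 (0 + 1) (by norm_num), map_zero, add_zero,
      hcol] at h4
    have h7 : (nil (A.D w) : Wd k A.V A.V) = 0 := h4
    have h8 := congrArg (fun v => (split v).1) h7
    simpa using h8
  set c : ℤ → M.cyc.V := M.cyc.cut (Set.Ici 0) (f.cyc.fm ξ) with hc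
  set y : ℤ → M.cyc.V := M.cyc.sing 0 (nil (M.mul F₁ (f.f w)) : Wd k M.V M.V) with hy
  have hfw : f.f w ∈ M.gr (-m) := f.gr _ _ hw
  have hFw : M.mul F₁ (f.f w) ∈ M.gr (-(m + 1)) := by
    have := M.mul_gr _ _ _ g1 _ hfw
    rwa [show -1 + -m = -(m + 1) by ring] at this
  have hDF : M.D (M.mul F₁ (f.f w)) = f.f w := by
    rw [M.D_mul, h1.D, M.one_mul', ← f.D, hDw, map_zero, map_zero, add_zero]
  have hycol : ∀ p : ℤ, p ∈ Set.Ici (0 : ℤ) → M.cyc.wD (Set.Ici 0) y p = f.cyc.fm P p := by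
    intro p hp
    rw [M.cyc.wD_mem _ hp, CycMod.Hom.fm_apply]
    rw [Set.mem_Ici] at hp
    have hp1 : y (p + 1) = 0 := M.cyc.sing_ne _ _ (by omega) _
    rw [hp1, map_zero, add_zero]
    rcases hp.eq_or_lt with rfl | hp
    · have h3 : y 0 = (nil (M.mul F₁ (f.f w)) : Wd k M.V M.V) := M.cyc.sing_same _ _
      rw [h3, hcol, hDF, hP0]
      exact (wm_nil (A := A.toSD) (B := M.toSD) f.f w).symm
    · have h3 : y p = 0 := M.cyc.sing_ne _ _ (by omega) _
      rw [h3, hP1 p hp, map_zero, map_zero]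
  have hccol : ∀ p : ℤ, p ∈ Set.Ici (0 : ℤ) → M.cyc.wD (Set.Ici 0) c p = f.cyc.fm P p := by
    intro p hp
    have hp1 : p + 1 ∈ Set.Ici (0 : ℤ) := by
      rw [Set.mem_Ici] at hp ⊢
      omega
    rw [M.cyc.wD_mem _ hp, hc, M.cyc.cut_mem _ hp, M.cyc.cut_mem _ hp1, ← hξ2, f.cyc.wD,
      M.cyc.wD_mem _ (Set.mem_univ _)]
  have hcCP : c ∈ M.cyc.CP (Set.Ici 0) (m + 1) :=
    Adj.cut_CP M.cyc _ (f.cyc.CP _ _ hξ)
  have hyCP : y ∈ M.cyc.CP (Set.Ici 0) (m + 1) := by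
    refine ⟨fun p => ?_, fun p hp => M.cyc.sing_ne _ _ (fun h => hp (by rw [h]; simp)) _, 0,
      fun p hp => M.cyc.sing_ne _ _ (ne_of_gt hp) _⟩
    by_cases h : p = 0
    · have h3 := nil_mem_wgr M.gr M.gr hFw
      rw [show -(-(m + 1)) = m + 1 - p by rw [h]; ring] at h3
      have h4 : y p = (nil (M.mul F₁ (f.f w)) : Wd k M.V M.V) := by
        rw [h]
        exact M.cyc.sing_same _ _
      rw [h4]
      exact h3
    · have h4 : y p = 0 := M.cyc.sing_ne _ _ h _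
      rw [h4]
      exact Submodule.zero_mem _
  have hZ : y - c ∈ M.cyc.Z (Set.Ici 0) (m + 1) := by
    refine ⟨?_, Submodule.sub_mem _ hyCP hcCP⟩
    change M.cyc.wD (Set.Ici 0) (y - c) = 0
    funext p
    rw [map_sub, Pi.sub_apply, Pi.zero_apply]
    by_cases hp : p ∈ Set.Ici (0 : ℤ)
    · rw [hycol p hp, hccol p hp, sub_self]
    · rw [M.cyc.wD_not_mem _ hp, M.cyc.wD_not_mem _ hp, sub_self]
  have hcls : M.cyc.cls (y - c) hZ = 0 := M.cyc.HC_zero M.cyc_Bex (lo := m + 2)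
    (fun n _ x => HH_zero M h1 n x) (by omega) _
  obtain ⟨χ, -, hχ2⟩ := (M.cyc.cls_eq_zero _ hZ).1 hcls
  have hT : ∀ F, IsCn M.toDGA F → TFc M F τ ((y - c) 0) = onec M τ (χ 0) := by
    intro F hF
    rw [← hχ2]
    exact TFc_wD hF hτ χ
  have hy0 : y 0 = (nil (M.mul F₁ (f.f w)) : Wd k M.V M.V) := M.cyc.sing_same _ _
  have hc0 : c 0 = f.cyc.f (ξ 0) := by
    rw [hc, M.cyc.cut_mem _ Set.self_mem_Ici]
    rfl
  have hval : ∀ F, (∀ v : A.cyc.V, TFc M F τ (f.cyc.f v) = 0) →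
      TFc M F τ ((y - c) 0) = τ (M.mul F (M.mul F₁ (f.f w))) := by
    intro F hV
    rw [Pi.sub_apply, map_sub, hy0, hc0, hV, sub_zero]
    exact TFc_nil F τ _
  apply hne
  rw [← hval F₁ V1, ← hval F₂ V2, hT F₁ h1, hT F₂ h2]

end TwoC

end NC
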